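import Mathlib
import Pool.Agent.TH579.HH.Defs

/-!
# The end of the counterexample: from a curve of degree `20` with `55` triple points
-/

set_option autoImplicit false

namespace Pool.Agent.TH959.HH

open MvPolynomial Finset

open Pool.Agent.TH579.HH

theorem mem_S {d : ℕ} {m : ℕ × ℕ} : m ∈ S d ↔ m.1 + m.2 ≤ d := by
  unfold S
  rw [mem_filter, mem_product, mem_range, mem_range]
  constructor
  · exact fun h => h.2
  · intro h
    exact ⟨⟨by omega, by omega⟩, h⟩

theorem pow_ext {R : Type} [CommRing R] (L M : R) (n : ℕ) (hn : n ≤ 20) :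
    (L + M) ^ n = ∑ α ∈ range 21, L ^ α * M ^ (n - α) * (n.choose α : R) := by
  rw [add_pow]
  apply sum_subset
  · intro i hi
    rw [mem_range] at *
    omega
  · intro i _ hi
    rw [mem_range, not_lt] at hi
    rw [Nat.choose_eq_zero_of_lt (by omega), Nat.cast_zero, mul_zero]

theorem mono_ext {R : Type} [CommRing R] (L M x y Z : R) (m : ℕ × ℕ) (hm : m.1 + m.2 ≤ 20) :
    (L + x * Z) ^ m.1 * (M + y * Z) ^ m.2 * Z ^ (20 - m.1 - m.2) =
      ∑ α ∈ range 21, ∑ β ∈ range 21, ((m.1.choose α * m.2.choose β : ℕ) : R) * x ^ (m.1 - α) *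
        y ^ (m.2 - β) * (L ^ α * M ^ β * Z ^ (20 - α - β)) := by
  rw [pow_ext L (x * Z) m.1 (by omega), pow_ext M (y * Z) m.2 (by omega), sum_mul_sum, sum_mul]
  refine sum_congr rfl fun α _ => ?_
  rw [sum_mul]
  refine sum_congr rfl fun β _ => ?_
  by_cases h1 : α ≤ m.1
  · by_cases h2 : β ≤ m.2
    · have h3 : Z ^ (20 - α - β) = Z ^ (m.1 - α) * Z ^ (m.2 - β) * Z ^ (20 - m.1 - m.2) := by
        rw [← pow_add, ← pow_add]
        congr 1
        omega
      rw [h3, mul_pow, mul_pow]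
      push_cast
      ring
    · rw [Nat.choose_eq_zero_of_lt (not_le.1 h2)]
      simp
  · rw [Nat.choose_eq_zero_of_lt (not_le.1 h1)]
    simp

/-- the form with the coefficients `c` -/
noncomputable def F {k : Type} [Field k] (d : ℕ) (c : ℕ × ℕ → k) : MvPolynomial (Fin 3) k :=
  ∑ m ∈ S d, C (c m) * (X 0 ^ m.1 * X 1 ^ m.2 * X 2 ^ (d - m.1 - m.2))

theorem F_eq {k : Type} [Field k] (a : ℕ × ℕ → k) (x y : k) :
    F 20 a = ∑ α ∈ range 21, ∑ β ∈ range 21, C (DD a x y α β) *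
      ((X 0 - C x * X 2) ^ α * (X 1 - C y * X 2) ^ β * X 2 ^ (20 - α - β)) := by
  have h : ∀ m ∈ S 20, (C (a m) * (X 0 ^ m.1 * X 1 ^ m.2 * X 2 ^ (20 - m.1 - m.2)) :
      MvPolynomial (Fin 3) k) = ∑ α ∈ range 21, ∑ β ∈ range 21,
      C (a m * ((m.1.choose α * m.2.choose β : ℕ) : k) * x ^ (m.1 - α) * y ^ (m.2 - β)) *
      ((X 0 - C x * X 2) ^ α * (X 1 - C y * X 2) ^ β * X 2 ^ (20 - α - β)) := by
    intro m hm
    have h1 := mono_ext (X 0 - C x * X 2 : MvPolynomial (Fin 3) k) (X 1 - C y * X 2) (C x) (C y)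
      (X 2) m (mem_S.1 hm)
    rw [sub_add_cancel, sub_add_cancel] at h1
    rw [h1, mul_sum]
    refine sum_congr rfl fun α _ => ?_
    rw [mul_sum]
    refine sum_congr rfl fun β _ => ?_
    simp only [map_mul, map_pow, map_natCast]
    ring
  unfold F
  rw [sum_congr rfl h, sum_comm]
  refine sum_congr rfl fun α _ => ?_
  rw [sum_comm]
  refine sum_congr rfl fun β _ => ?_
  unfold DD
  rw [map_sum, sum_mul]

theorem F_mem {k : Type} [Field k] (a : ℕ × ℕ → k) (x y : k)
    (h : ∀ α β, α + β ≤ 2 → DD a x y α β = 0) (I : Ideal (MvPolynomial (Fin 3) k))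
    (h0 : X 0 - C x * X 2 ∈ I) (h1 : X 1 - C y * X 2 ∈ I) : F 20 a ∈ I ^ 3 := by
  rw [F_eq a x y]
  refine sum_mem fun α _ => sum_mem fun β _ => ?_
  by_cases h2 : α + β ≤ 2
  · rw [h α β h2, C_0, zero_mul]
    exact zero_mem _
  · apply Ideal.mul_mem_left
    apply Ideal.mul_mem_right
    have h3 : (X 0 - C x * X 2) ^ α * (X 1 - C y * X 2) ^ β ∈ I ^ (α + β) := by
      rw [pow_add]
      exact Ideal.mul_mem_mul (Ideal.pow_mem_pow h0 α) (Ideal.pow_mem_pow h1 β)
    exact Ideal.pow_le_pow_right (by omega) h3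

/-- the exponents -/
noncomputable def ex (d : ℕ) (m : ℕ × ℕ) : Fin 3 →₀ ℕ :=
  Finsupp.single 0 m.1 + Finsupp.single 1 m.2 + Finsupp.single 2 (d - m.1 - m.2)

theorem ex0 (d : ℕ) (m : ℕ × ℕ) : ex d m 0 = m.1 := by
  simp [ex]

theorem ex1 (d : ℕ) (m : ℕ × ℕ) : ex d m 1 = m.2 := by
  simp [ex]

theorem ex2 (d : ℕ) (m : ℕ × ℕ) : ex d m 2 = d - m.1 - m.2 := by
  simp [ex]

theorem ex_deg {d : ℕ} {m : ℕ × ℕ} (hm : m.1 + m.2 ≤ d) : (ex d m).degree = d := by
  rw [Finsupp.degree_eq_sum, Fin.sum_univ_three, ex0, ex1, ex2]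
  omega

theorem F_mon {k : Type} [Field k] (d : ℕ) (c : ℕ × ℕ → k) :
    F d c = ∑ m ∈ S d, monomial (ex d m) (c m) := by
  unfold F
  refine sum_congr rfl fun m _ => ?_
  rw [ex, X_pow_eq_monomial, X_pow_eq_monomial, X_pow_eq_monomial, monomial_mul, monomial_mul,
    C_mul_monomial]
  simp

theorem F_hom {k : Type} [Field k] (d : ℕ) (c : ℕ × ℕ → k) : (F d c).IsHomogeneous d := by
  rw [F_mon]
  apply IsHomogeneous.sum
  intro m hm
  exact isHomogeneous_monomial _ (ex_deg (mem_S.1 hm))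

theorem coeff_F {k : Type} [Field k] (d : ℕ) (c : ℕ × ℕ → k) (m : ℕ × ℕ) (hm : m ∈ S d) :
    coeff (ex d m) (F d c) = c m := by
  rw [F_mon, coeff_sum, sum_eq_single_of_mem m hm]
  · rw [coeff_monomial, if_pos rfl]
  · intro n _ hn
    rw [coeff_monomial, if_neg]
    intro h
    apply hn
    have e0 := congrArg (fun z => z 0) h
    have e1 := congrArg (fun z => z 1) h
    simp only [ex0, ex1] at e0 e1
    exact Prod.ext e0 e1

theorem eq_F {k : Type} [Field k] {d : ℕ} {g : MvPolynomial (Fin 3) k} (hg : g.IsHomogeneous d) :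
    g = F d (fun m => coeff (ex d m) g) := by
  ext t
  by_cases ht : t.degree = d
  · have hsum : t 0 + t 1 + t 2 = d := by
      rw [← ht, Finsupp.degree_eq_sum, Fin.sum_univ_three]
    have hm : (t 0, t 1) ∈ S d := mem_S.2 (by simp only; omega)
    have he : ex d (t 0, t 1) = t := by
      ext i
      fin_cases i
      · exact ex0 _ _
      · exact ex1 _ _
      · show ex d (t 0, t 1) 2 = t 2
        rw [ex2]
        simp only
        omega
    have h2 := coeff_F d (fun m => coeff (ex d m) g) (t 0, t 1) hm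
    simp only [he] at h2
    exact h2.symm
  · rw [hg.coeff_eq_zero ht, (F_hom d _).coeff_eq_zero ht]

/-- the point -/
def pt {k : Type} [Field k] (x y : k) : Fin 3 → k := ![x, y, 1]

theorem pt_ne {k : Type} [Field k] (x y : k) : pt x y ≠ 0 := by
  intro h
  have := congrFun h 2
  simp [pt] at this

theorem eval_F {k : Type} [Field k] (d : ℕ) (c : ℕ × ℕ → k) (x y u : k) (w : Fin 3 → k)
    (hw : w = fun i => u * pt x y i) :
    eval w (F d c) = u ^ d * ∑ m ∈ S d, c m * x ^ m.1 * y ^ m.2 := by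
  unfold F
  rw [map_sum, mul_sum]
  refine sum_congr rfl fun m hm => ?_
  have hm' := mem_S.1 hm
  have e0 : w 0 = u * x := by rw [hw]; simp [pt]
  have e1 : w 1 = u * y := by rw [hw]; simp [pt]
  have e2 : w 2 = u := by rw [hw]; simp [pt]
  simp only [map_mul, map_pow, eval_C, eval_X, e0, e1, e2]
  have h3 : u ^ d = u ^ m.1 * u ^ m.2 * u ^ (d - m.1 - m.2) := by
    rw [← pow_add, ← pow_add]
    congr 1
    omega
  rw [h3, mul_pow, mul_pow]
  ring

theorem final : Pool.Agent.TH579.HH.St_final := by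
  intro k _ _ _ a x y h3 hne hind H
  classical
  set W : Finset (Projectivization k (Fin (2 + 1) → k)) :=
    (range 55).image (fun i => Projectivization.mk k (pt (x i) (y i)) (pt_ne (x i) (y i))) with hW
  have hWne : W.Nonempty := ⟨_, mem_image_of_mem _ (mem_range.2 (by norm_num : 0 < 55))⟩
  have hrep : ∀ P ∈ W, ∃ i < 55, ∃ u : k, u ≠ 0 ∧ P.rep = fun j => u * pt (x i) (y i) j := by
    intro P hP
    rw [hW, mem_image] at hP
    obtain ⟨i, hi, rfl⟩ := hP
    obtain ⟨u, hu⟩ := Projectivization.exists_smul_eq_mk_rep k (pt (x i) (y i)) (pt_ne (x i) (y i))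
    refine ⟨i, mem_range.1 hi, u, u.ne_zero, ?_⟩
    rw [← hu]
    rfl
  have hmain : (∃ s : ℕ, (∃ g : MvPolynomial (Fin (2 + 1)) k, g ≠ 0 ∧ g.IsHomogeneous s ∧
      g ∈ ⨅ P ∈ W, Ideal.span {h : MvPolynomial (Fin (2 + 1)) k |
        ∃ d : ℕ, h.IsHomogeneous d ∧ MvPolynomial.eval P.rep h = 0}) ∧
      2 * s + (2 - 1) * (2 - 1) ≤ 20) → False := by
    rintro ⟨s, ⟨g, hg0, hgs, hgm⟩, hs⟩
    have hs9 : s ≤ 9 := by omega
    have hG : (g * X 2 ^ (9 - s)).IsHomogeneous 9 := by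
      have h1 := hgs.mul (isHomogeneous_X_pow (R := k) (2 : Fin 3) (9 - s))
      rwa [Nat.add_sub_cancel' hs9] at h1
    have hc := eq_F hG
    have hz : ∀ m ∈ S 9, coeff (ex 9 m) (g * X 2 ^ (9 - s)) = 0 := by
      apply hind
      intro i hi
      set P := Projectivization.mk k (pt (x i) (y i)) (pt_ne (x i) (y i)) with hP
      have hPW : P ∈ W := mem_image_of_mem _ (mem_range.2 hi)
      obtain ⟨u, hu⟩ := Projectivization.exists_smul_eq_mk_rep k (pt (x i) (y i))
        (pt_ne (x i) (y i))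
      have hgP : g ∈ Ideal.span {h : MvPolynomial (Fin (2 + 1)) k |
          ∃ d : ℕ, h.IsHomogeneous d ∧ MvPolynomial.eval P.rep h = 0} := by
        have := hgm
        rw [Ideal.mem_iInf] at this
        have h1 := this P
        rw [Ideal.mem_iInf] at h1
        exact h1 hPW
      have hle : Ideal.span {h : MvPolynomial (Fin (2 + 1)) k |
          ∃ d : ℕ, h.IsHomogeneous d ∧ MvPolynomial.eval P.rep h = 0} ≤
          RingHom.ker (eval P.rep) := by
        rw [Ideal.span_le]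
        rintro h ⟨d, -, hh⟩
        exact hh
      have hev : eval P.rep g = 0 := hle hgP
      have h2 : eval P.rep (g * X 2 ^ (9 - s)) = 0 := by rw [map_mul, hev, zero_mul]
      rw [hc, eval_F 9 _ (x i) (y i) (u : k) P.rep (by rw [hP, ← hu]; rfl)] at h2
      rcases mul_eq_zero.1 h2 with h4 | h4
      · exact absurd h4 (pow_ne_zero 9 u.ne_zero)
      · exact h4
    have hG0 : g * X 2 ^ (9 - s) = 0 := by
      rw [hc]
      unfold F
      refine sum_eq_zero fun m hm => ?_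
      have hzm : (fun m => coeff (ex 9 m) (g * X 2 ^ (9 - s))) m = 0 := hz m hm
      rw [hzm, C_0, zero_mul]
    rcases mul_eq_zero.1 hG0 with h5 | h5
    · exact hg0 h5
    · exact pow_ne_zero _ (X_ne_zero _) h5
  refine hmain (H k 2 (by norm_num) W hWne 2 (by norm_num) 20 ⟨F 20 a, ?_, F_hom 20 a, ?_⟩)
  · obtain ⟨m, hm, ham⟩ := hne
    intro h0
    apply ham
    rw [← coeff_F 20 a m hm, h0, coeff_zero]
  · rw [Ideal.mem_iInf]
    intro P
    rw [Ideal.mem_iInf]
    intro hP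
    obtain ⟨i, hi, u, hu, hr⟩ := hrep P hP
    show F 20 a ∈ _ ^ 3
    apply F_mem a (x i) (y i) (h3 i hi)
    · apply Ideal.subset_span
      refine ⟨1, ?_, ?_⟩
      · exact (isHomogeneous_X _ _).sub ((isHomogeneous_X _ _).C_mul _)
      · rw [hr]
        simp [pt]
        ring
    · apply Ideal.subset_span
      refine ⟨1, ?_, ?_⟩
      · exact (isHomogeneous_X _ _).sub ((isHomogeneous_X _ _).C_mul _)
      · rw [hr]
        simp [pt]
        ring

end Pool.Agent.TH959.HH
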